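import Pool.Agent.Results.MP_dddec0_nt.AlmostEveryRealTuple

/-!
# ALL the constant polynomials near the first digits of almost every real number

`p n` is the `n`-th prime, `n ≥ 1`. For almost every real number `ξ` in `[0, 1)` and for all large `k` the number of the `n` with
`p n ≤ N` such that `p n + 2 P` is prime is asymptotically the expected one for ALL the constant polynomials `P = m`, `m` at a
distance of at most `k ^ W` from `c_k + κ [b ^ k ξ]`, and for ALL `N` between `b ^ k / C` and `k ^ K b ^ k`, for all the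
parameters at once. More generally, for almost every point of `[0, 1) ^ s`, this holds for `s` constant polynomials at once: the
number of the `n` with `p n ≤ N` such that all the `p n + 2 m i` are primes. And it holds for almost all points of much smaller
sets, with respect to singular measures: it is enough that the first `k` digits have exchangeable blocks (Bernoulli and
Markov measures, for example almost every point of the Cantor set with respect to the Cantor measure).

The definitions `Exchangeable`, `JointLaw`, `Admissible` and `sing` and the theorem on the primes `q` such that all `q + a i` are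
primes are in the file `Pool.Agent.Results.MP_dddec0_nt.AlmostEveryRealTuple`.
-/

set_option autoImplicit false

open Filter MeasureTheory Finset
open scoped ENNReal

namespace Pool.Agent.Results.MP_3aaefc_nt.AlmostEveryRealTuple

open Pool.Agent.Results.MP_dddec0_nt.AlmostEveryRealTuple (sing Admissible JointLaw)

/-- the `n`-th prime, `n ≥ 1` -/
noncomputable def p (n : ℕ) : ℕ := Nat.nth Nat.Prime (n - 1)

/-- the number of the `n ≥ 1` with `p n ≤ N` such that `p n + 2 m i` is prime for all `i < s` -/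
noncomputable def count {s : ℕ} (m : Fin s → ℕ) (N : ℕ) : ℕ := {n : ℕ | 1 ≤ n ∧ p n ≤ N ∧ ∀ i, (p n + 2 * m i).Prime}.ncard

/-- The singular series of the shifts `2 m i` converges, and if these shifts are admissible then its sum `S` is positive and
`S N / log ^ (s + 1) N` is the number of the `n ≥ 1` with `p n ≤ N` such that `p n + 2 m i` is prime for all `i`, up to a
relative error of at most `ε`. -/
def Law {s : ℕ} (ε : ℝ) (N : ℕ) (m : Fin s → ℕ) : Prop :=
  ∃ S : ℝ, Tendsto (fun z => sing (fun i => 2 * m i) z) atTop (nhds S) ∧ (Admissible (fun i => 2 * m i) → 0 < S ∧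
    |(count m N : ℝ) - S * (N / Real.log N ^ (s + 1))| ≤ ε * (S * (N / Real.log N ^ (s + 1))))

/-- For all integers `κ i ≠ 0`, `C`, `K`, `W` and `ε > 0` and for all large `k`: for all `N` with `b ^ k ≤ C N` and
`N ≤ k ^ K b ^ k`, all `m` with `|m i - (c_k i + κ i x_k i)| ≤ k ^ W` for all `i` have the property `Law ε N m`. -/
def Always {s : ℕ} (b : ℕ) (c : ℕ → Fin s → ℤ) (x : ℕ → Fin s → ℕ) : Prop :=
  ∀ (κ : Fin s → ℤ) (C K W : ℕ) (ε : ℝ), (∀ i, κ i ≠ 0) → 0 < ε → ∀ᶠ k : ℕ in atTop, ∀ N : ℕ, b ^ k ≤ C * N →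
    N ≤ k ^ K * b ^ k → ∀ m : Fin s → ℕ, (∀ i, |(m i : ℤ) - (c k i + κ i * x k i)| ≤ (k : ℤ) ^ W) → Law ε N m

theorem p_inj {n m : ℕ} (hn : 1 ≤ n) (hm : 1 ≤ m) (h : p n = p m) : n = m := by
  have := Nat.nth_injective Nat.infinite_setOf_prime h
  omega

theorem prime_p (n : ℕ) : (p n).Prime := Nat.prime_nth_prime _

theorem exists_p {q : ℕ} (hq : q.Prime) : ∃ n, 1 ≤ n ∧ p n = q :=
  ⟨Nat.count Nat.Prime q + 1, by omega, by
    unfold p
    rw [Nat.add_sub_cancel]
    exact Nat.nth_count hq⟩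

theorem count_eq {s : ℕ} (m : Fin s → ℕ) (N : ℕ) :
    count m N = Pool.Agent.Results.MP_dddec0_nt.AlmostEveryRealTuple.count (fun i => 2 * m i) N := by
  unfold count Pool.Agent.Results.MP_dddec0_nt.AlmostEveryRealTuple.count
  rw [← Set.ncard_coe_finset]
  have himg : (((Icc 1 N).filter (fun q : ℕ => q.Prime ∧ ∀ i, (q + 2 * m i).Prime) : Finset ℕ) : Set ℕ) =
      p '' {n : ℕ | 1 ≤ n ∧ p n ≤ N ∧ ∀ i, (p n + 2 * m i).Prime} := by
    ext q
    rw [mem_coe, mem_filter, mem_Icc]
    constructor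
    · rintro ⟨⟨-, h1⟩, h2, h3⟩
      obtain ⟨n, hn, rfl⟩ := exists_p h2
      exact ⟨n, ⟨hn, h1, h3⟩, rfl⟩
    · rintro ⟨n, ⟨hn, h1, h3⟩, rfl⟩
      exact ⟨⟨(prime_p n).one_le, h1⟩, prime_p n, h3⟩
  rw [himg, Set.ncard_image_of_injOn]
  intro n hn m' hm h
  exact p_inj hn.1 hm.1 h

/-- from the shifts `a` near `2 c + 2 κ x` to the constants `m` near `c + κ x` -/
theorem always_of {s : ℕ} {b : ℕ} {c : ℕ → Fin s → ℤ} {x : ℕ → Fin s → ℕ}
    (h : Pool.Agent.Results.MP_dddec0_nt.AlmostEveryRealTuple.Always b (fun k i => 2 * c k i) x) : Always b c x := by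
  intro κ C K W ε hκ hε
  have h1 := h (fun i => 2 * κ i) C K (W + 1) ε (fun i => mul_ne_zero (by norm_num) (hκ i)) hε
  filter_upwards [h1, eventually_ge_atTop 2] with k h2 hk N hN1 hN2 m hm
  obtain ⟨S, h3, h4⟩ := h2 N hN1 hN2 (fun i => 2 * m i) (fun i => by
    have h5 := hm i
    have h6 : (((2 * m i : ℕ) : ℤ) - (2 * c k i + 2 * κ i * x k i)) = 2 * ((m i : ℤ) - (c k i + κ i * x k i)) := by
      push_cast
      ring
    rw [h6, abs_mul, pow_succ]
    have h7 : (2 : ℤ) ≤ k := by exact_mod_cast hk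
    have h8 : (0 : ℤ) ≤ (k : ℤ) ^ W := by positivity
    have h9 : |(2 : ℤ)| = 2 := by norm_num
    rw [h9]
    nlinarith)
  refine ⟨S, h3, fun hadm => ?_⟩
  obtain ⟨h5, h6⟩ := h4 hadm
  refine ⟨h5, ?_⟩
  rw [count_eq]
  exact h6

/-- a single even shift is admissible -/
theorem adm_one (m : ℕ) : Admissible (fun _ : Fin 1 => 2 * m) := by
  intro q hq
  by_cases h : (q : ℤ) ∣ 1 + 2 * (m : ℤ)
  · refine ⟨2, fun h2 => ?_, fun _ h3 => ?_⟩
    · -- `q = 2` does not divide `1 + 2 m`
      have h4 : (q : ℤ) ∣ 1 := by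
        have : (q : ℤ) ∣ (1 + 2 * (m : ℤ)) - 2 * (m : ℤ) := dvd_sub h (Dvd.dvd.mul_right h2 _)
        simpa using this
      exact hq.one_lt.ne' (Int.natCast_dvd_natCast.1 (by simpa using h4) |> Nat.dvd_one.1)
    · have h4 : (q : ℤ) ∣ 1 := by
        have h5 : (q : ℤ) ∣ (2 + ((2 * m : ℕ) : ℤ)) - (1 + 2 * (m : ℤ)) := dvd_sub h3 h
        have h6 : (2 + ((2 * m : ℕ) : ℤ)) - (1 + 2 * (m : ℤ)) = 1 := by
          push_cast
          ring
        rwa [h6] at h5
      exact hq.one_lt.ne' (Int.natCast_dvd_natCast.1 (by simpa using h4) |> Nat.dvd_one.1)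
  · refine ⟨1, fun h2 => ?_, fun _ h3 => h ?_⟩
    · exact hq.one_lt.ne' (Int.natCast_dvd_natCast.1 (by simpa using h2) |> Nat.dvd_one.1)
    · push_cast at h3
      exact h3

/-- Let `s ≥ 1` (the number of the constant polynomials), `b ≥ 2` and let `c_k i` be integers with `|c_k i| ≤ B b ^ k`.

**(0)** For one constant polynomial `P = m` the shift `2 m` is always admissible.

**(1)** Let `x_k = x_k(ω)` be random vectors of integers on a probability space which for all large `k` satisfy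
`JointLaw ν b L η T₀ T₁ k x_k`. Then almost surely `Always b c x`.

**(2)** Almost every point `ξ` of `[0, 1) ^ s` has the property `Always b c x` with `x_k i = [b ^ k ξ i]`. -/
theorem result (s : ℕ) (hs : 1 ≤ s) (b : ℕ) (hb : 2 ≤ b) (B : ℕ) (c : ℕ → Fin s → ℤ)
    (hc : ∀ k i, |c k i| ≤ B * (b : ℤ) ^ k) :
    (∀ m : ℕ, Admissible (fun _ : Fin 1 => 2 * m)) ∧
    (∀ L : ℕ, 1 ≤ L → ∀ η : ℝ, 0 < η → η ≤ 1 → ∀ (T₀ T₁ : ℕ) (Ω : Type) [MeasurableSpace Ω] (ν : Measure Ω)
      [IsProbabilityMeasure ν] (x : ℕ → Ω → Fin s → ℕ), (∀ᶠ k : ℕ in atTop, JointLaw ν b L η T₀ T₁ k (x k)) →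
        ∀ᵐ ω ∂ν, Always b c fun k => x k ω) ∧
    (∀ᵐ ξ : Fin s → ℝ, (∀ i, 0 ≤ ξ i ∧ ξ i < 1) → Always b c fun k i => ⌊(b : ℝ) ^ k * ξ i⌋₊) := by
  obtain ⟨h1, h2⟩ := Pool.Agent.Results.MP_dddec0_nt.AlmostEveryRealTuple.result s hs b hb (2 * B) (fun k i => 2 * c k i)
    (fun k i => by
      rw [abs_mul]
      have := hc k i
      have h9 : |(2 : ℤ)| = 2 := by norm_num
      rw [h9]
      push_cast
      nlinarith)
  refine ⟨adm_one, fun L hL η hη0 hη1 T₀ T₁ Ω _ ν _ x hx => ?_, ?_⟩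
  · filter_upwards [h1 L hL η hη0 hη1 T₀ T₁ Ω ν x hx] with ω hω
    exact always_of hω
  · filter_upwards [h2] with ξ hξ h3
    exact always_of (hξ h3)

end Pool.Agent.Results.MP_3aaefc_nt.AlmostEveryRealTuple
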