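import Pool.Agent.N837.LP.GenQ

set_option autoImplicit false

/-!
# A positive proportion of the constant terms has a late first prime `p_n + 2 P(n)`

For every integer-valued polynomial `P`, every `A ≥ 1` and `0 < η ≤ 1`, for every large `X`, for a positive
proportion of the `c` in `(X, X + X ^ η]` the numbers `p_n + 2 (P(n) + c)`, `1 ≤ n ≤ A log X`, are all
composite.
-/

namespace Pool.Agent.Results.MP_3aaefc_nt.LateIndices

open Polynomial Finset

theorem nth_le (n : ℕ) : Nat.nth Nat.Prime n ≤ 2 ^ (n + 1) := by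
  induction n with
  | zero => rw [Nat.nth_prime_zero_eq_two]; norm_num
  | succ n ih =>
    have h0 : Nat.nth Nat.Prime n ≠ 0 := (Nat.prime_nth_prime n).ne_zero
    obtain ⟨p, hp, hp1, hp2⟩ := Nat.exists_prime_lt_and_le_two_mul _ h0
    have h1 : Nat.nth Nat.Prime (n + 1) ≤ p := by
      have h2 : Nat.nth Nat.Prime (Nat.count Nat.Prime p) = p := Nat.nth_count hp
      have h3 : n + 1 ≤ Nat.count Nat.Prime p := by
        by_contra hc
        push Not at hc
        have h4 : Nat.nth Nat.Prime (Nat.count Nat.Prime p) ≤ Nat.nth Nat.Prime n :=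
          (Nat.nth_strictMono Nat.infinite_setOfPred_prime).monotone (by omega)
        omega
      calc Nat.nth Nat.Prime (n + 1) ≤ Nat.nth Nat.Prime (Nat.count Nat.Prime p) :=
            (Nat.nth_strictMono Nat.infinite_setOfPred_prime).monotone h3
        _ = p := h2
    have h5 : 2 ^ (n + 1 + 1) = 2 * 2 ^ (n + 1) := by ring
    omega

theorem eval_bound (P : ℚ[X]) : ∃ S : ℝ, 0 ≤ S ∧ ∀ x : ℕ, 1 ≤ x → ∀ Z : ℝ, (x : ℝ) ≤ Z →
    |((P.eval (x : ℚ) : ℚ) : ℝ)| ≤ S * Z ^ P.natDegree := by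
  refine ⟨∑ i ∈ range (P.natDegree + 1), |((P.coeff i : ℚ) : ℝ)|,
    Finset.sum_nonneg (fun _ _ => abs_nonneg _), fun x hx Z hZ => ?_⟩
  have hx1 : (1:ℝ) ≤ x := by exact_mod_cast hx
  rw [Polynomial.eval_eq_sum_range]
  push_cast
  refine (Finset.abs_sum_le_sum_abs _ _).trans ?_
  rw [Finset.sum_mul]
  apply Finset.sum_le_sum
  intro i hi
  rw [Finset.mem_range] at hi
  rw [abs_mul, abs_of_nonneg (show (0:ℝ) ≤ (x:ℝ) ^ i by positivity)]
  apply mul_le_mul_of_nonneg_left _ (abs_nonneg _)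
  calc (x:ℝ) ^ i ≤ (x:ℝ) ^ P.natDegree := pow_le_pow_right₀ hx1 (by omega)
    _ ≤ Z ^ P.natDegree := pow_le_pow_left₀ (by linarith) hZ _

theorem result (δ : ℝ) (hδ : 0 < δ) : ∃ C : ℝ, 0 < C ∧ ∀ A η : ℝ, 1 ≤ A → 0 < η → η ≤ 1 →
    ∀ P : ℚ[X], (∀ m : ℤ, ∃ z : ℤ, P.eval (m : ℚ) = z) →
    ∃ X₀ : ℝ, ∀ X : ℝ, X₀ ≤ X →
    X ^ η / 2 * Real.exp (-Real.exp (C * A / η)) ≤
      (({c : ℕ | X < c ∧ (c : ℝ) ≤ X + X ^ η ∧
        ∀ n : ℕ, 1 ≤ n → (n : ℝ) ≤ A * Real.log X → ∀ v : ℤ,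
          (v : ℚ) = (Nat.nth Nat.Prime (n - 1) : ℚ) + 2 * (P.eval (n : ℚ) + c) →
          ∃ q : ℕ, q.Prime ∧ (q : ℤ) ∣ v ∧ (q : ℤ) < |v|}).ncard : ℝ) := by
  classical
  obtain ⟨C, hC, h⟩ := Pool.Agent.N837.LP.genQ δ hδ
  refine ⟨2 * C, by positivity, fun A η hA hη hη1 P hP => ?_⟩
  obtain ⟨S, hS0, hS⟩ := eval_bound P
  choose f hf using fun n : ℕ => hP (n : ℤ)
  have hf' : ∀ n : ℕ, P.eval (n : ℚ) = (f n : ℚ) := by
    intro n
    have := hf n
    simpa using this
  set hh : ℕ := P.natDegree with hhh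
  set E : ℝ := A + (hh : ℝ) + 2 with hE
  obtain ⟨X₀, hX₀⟩ := h A η E 2 hA hη hη1 (by
    rw [hE]
    have : (0:ℝ) ≤ hh := Nat.cast_nonneg _
    linarith) (by norm_num)
  have hev1 : ∀ᶠ X : ℝ in Filter.atTop, (2 : ℝ) ≤ X ^ (η / 2) :=
    (tendsto_rpow_atTop (half_pos hη)).eventually_ge_atTop _
  have hev2 : ∀ᶠ X : ℝ in Filter.atTop, A * Real.log X ≤ X := by
    have h0 := Real.isLittleO_log_id_atTop.bound (show (0:ℝ) < 1 / A by positivity)
    filter_upwards [h0, Filter.eventually_ge_atTop 1] with X hX hX1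
    rw [Real.norm_of_nonneg (Real.log_nonneg hX1), id, Real.norm_of_nonneg (by linarith),
      one_div, ← div_eq_inv_mul, le_div_iff₀ (by positivity)] at hX
    linarith
  obtain ⟨X₁, hX₁⟩ := Filter.eventually_atTop.1 (hev1.and hev2)
  refine ⟨max X₀ (max 16 (max (2 * S + 2) X₁)), fun X hX => ?_⟩
  have hXX₀ : X₀ ≤ X := (le_max_left _ _).trans hX
  have hX16 : 16 ≤ X := (le_max_left _ _).trans ((le_max_right _ _).trans hX)
  have hXS : 2 * S + 2 ≤ X :=
    (le_max_left _ _).trans ((le_max_right _ _).trans ((le_max_right _ _).trans hX))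
  have hXX₁ : X₁ ≤ X :=
    (le_max_right _ _).trans ((le_max_right _ _).trans ((le_max_right _ _).trans hX))
  obtain ⟨g1, g2⟩ := hX₁ X hXX₁
  have hX0 : 0 < X := by linarith
  have hL0 : 0 ≤ Real.log X := Real.log_nonneg (by linarith)
  set X' : ℝ := 2 * X with hX'
  have hXX' : X ≤ X' := by linarith
  have hX'0 : 0 < X' := by linarith
  have hlogXX : Real.log X ≤ Real.log X' := Real.log_le_log hX0 hXX'
  set b : ℕ → ℤ := fun n => -((Nat.nth Nat.Prime (n - 1) : ℤ) + 2 * f n) with hb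
  set B : Finset ℤ := (Finset.Icc 1 ⌊A * Real.log X⌋₊).image b with hB
  have hBcard : (B.card : ℝ) ≤ A * Real.log X' := by
    have e1 : B.card ≤ ⌊A * Real.log X⌋₊ := by
      refine Finset.card_image_le.trans ?_
      rw [Nat.card_Icc]
      omega
    have e2 : (B.card : ℝ) ≤ ⌊A * Real.log X⌋₊ := by exact_mod_cast e1
    have e3 : (⌊A * Real.log X⌋₊ : ℝ) ≤ A * Real.log X := Nat.floor_le (by positivity)
    have e4 : A * Real.log X ≤ A * Real.log X' := mul_le_mul_of_nonneg_left hlogXX (by linarith)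
    linarith
  have hBE : ∀ c ∈ B, |(c : ℝ)| ≤ X' ^ E := by
    intro c hc
    rw [hB, Finset.mem_image] at hc
    obtain ⟨n, hn, rfl⟩ := hc
    rw [Finset.mem_Icc] at hn
    have hnL : (n : ℝ) ≤ A * Real.log X := by
      have : (n : ℝ) ≤ ⌊A * Real.log X⌋₊ := by exact_mod_cast hn.2
      exact this.trans (Nat.floor_le (by positivity))
    have e1 := hS n hn.1 X (hnL.trans g2)
    rw [hf' n] at e1
    push_cast at e1
    have e2 : (Nat.nth Nat.Prime (n - 1) : ℝ) ≤ X ^ A := by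
      have f1 : Nat.nth Nat.Prime (n - 1) ≤ 2 ^ n := by
        have := nth_le (n - 1)
        have f2 : n - 1 + 1 = n := by omega
        rwa [f2] at this
      have f3 : (Nat.nth Nat.Prime (n - 1) : ℝ) ≤ (2:ℝ) ^ n := by exact_mod_cast f1
      refine f3.trans ?_
      rw [Real.rpow_def_of_pos hX0]
      have f4 : (2:ℝ) ^ n = Real.exp (n * Real.log 2) := by
        rw [Real.exp_nat_mul, Real.exp_log (by norm_num)]
      rw [f4]
      apply Real.exp_le_exp.2
      have f5 : Real.log 2 ≤ 1 := by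
        have := Real.log_two_lt_d9
        linarith
      have f6 : (0:ℝ) ≤ n := Nat.cast_nonneg _
      nlinarith
    have e3 : (1:ℝ) ≤ X ^ A := Real.one_le_rpow (by linarith) (by linarith)
    have e4 : X ^ hh = X ^ (hh : ℝ) := (Real.rpow_natCast X hh).symm
    have e5 : (1:ℝ) ≤ X ^ (hh : ℝ) := Real.one_le_rpow (by linarith) (Nat.cast_nonneg _)
    have e6 : X ^ E = X ^ A * X ^ (hh : ℝ) * (X * X) := by
      rw [hE, Real.rpow_add hX0, Real.rpow_add hX0]
      congr 1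
      rw [show (2:ℝ) = ((2:ℕ):ℝ) by norm_num, Real.rpow_natCast]
      ring
    have e7 : X ^ E ≤ X' ^ E := Real.rpow_le_rpow hX0.le hXX' (by
      rw [hE]
      positivity)
    refine le_trans ?_ e7
    rw [e6]
    simp only [hb]
    push_cast
    rw [abs_neg]
    have e8 : |(Nat.nth Nat.Prime (n - 1) : ℝ) + 2 * (f n : ℝ)| ≤ X ^ A + 2 * (S * X ^ (hh:ℝ)) := by
      refine (abs_add_le _ _).trans ?_
      rw [abs_of_nonneg (show (0:ℝ) ≤ (Nat.nth Nat.Prime (n - 1) : ℝ) from Nat.cast_nonneg _),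
        abs_mul, abs_of_pos (show (0:ℝ) < 2 by norm_num)]
      rw [e4] at e1
      linarith
    refine e8.trans ?_
    have e9 : X ^ A ≤ X ^ A * X ^ (hh : ℝ) := le_mul_of_one_le_right (by linarith) e5
    have e10 : X ^ (hh : ℝ) ≤ X ^ A * X ^ (hh : ℝ) := le_mul_of_one_le_left (by linarith) e3
    have e11 : X ^ A + 2 * (S * X ^ (hh:ℝ)) ≤ (X ^ A * X ^ (hh : ℝ)) * (2 * S + 1) := by
      nlinarith
    have e12 : 0 ≤ X ^ A * X ^ (hh : ℝ) := by positivity
    refine e11.trans (mul_le_mul_of_nonneg_left ?_ e12)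
    nlinarith
  have h1 := hX₀ X' (hXX₀.trans hXX') 2 (by norm_num)
    (by
      push_cast
      exact g1.trans (Real.rpow_le_rpow hX0.le hXX' (by positivity)))
    (by
      rw [Nat.totient_two]
      norm_num) B hBcard hBE 0
  have h2 : C * A * 2 / η = 2 * C * A / η := by ring
  rw [h2] at h1
  have hXη' : X ^ η ≤ X' ^ η := Real.rpow_le_rpow hX0.le hXX' hη.le
  have h3 : X ^ η / 2 * Real.exp (-Real.exp (2 * C * A / η)) ≤
      X' ^ η / ((2:ℕ):ℝ) * Real.exp (-Real.exp (2 * C * A / η)) := by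
    apply mul_le_mul_of_nonneg_right _ (Real.exp_pos _).le
    push_cast
    linarith
  have hup : X' ^ η ≤ 2 * X ^ η := by
    rw [hX', Real.mul_rpow (by norm_num) hX0.le]
    apply mul_le_mul_of_nonneg_right _ (by positivity)
    calc (2:ℝ) ^ η ≤ (2:ℝ) ^ (1:ℝ) := Real.rpow_le_rpow_of_exponent_le (by norm_num) hη1
      _ = 2 := Real.rpow_one _
  refine (h3.trans h1).trans (Nat.cast_le.2 ?_)
  refine Set.ncard_le_ncard_of_injOn (fun m : ℕ => m / 2) ?_ ?_ ?_
  · intro m hm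
    obtain ⟨q1, q2, q3, q4⟩ := hm
    rw [sub_zero] at q3
    have hm2 : m = 2 * (m / 2) := by omega
    set c : ℕ := m / 2 with hc
    have hmR : (m : ℝ) = 2 * c := by exact_mod_cast hm2
    rw [hmR] at q1 q2
    refine ⟨?_, ?_, ?_⟩
    · linarith
    · linarith
    · intro n hn1 hn2 v hv
      have hnB : b n ∈ B := by
        rw [hB]
        apply Finset.mem_image_of_mem
        rw [Finset.mem_Icc]
        exact ⟨hn1, Nat.le_floor hn2⟩
      obtain ⟨q, p1, p2, p3, p4⟩ := q4 _ hnB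
      have hvZ : (m : ℤ) - b n = v := by
        have e1 : ((m : ℤ) : ℚ) = 2 * c := by exact_mod_cast hm2
        have e2 : (((m : ℤ) - b n : ℤ) : ℚ) = (v : ℚ) := by
          rw [hv, hf' n]
          simp only [hb]
          push_cast
          have e3 : (m : ℚ) = 2 * c := by exact_mod_cast hm2
          rw [e3]
          ring
        exact_mod_cast e2
      rw [hvZ] at p3 p4
      exact ⟨q, p1, p3, p4⟩
  · intro m hm m' hm' hmm
    have e1 := hm.2.2.1
    have e2 := hm'.2.2.1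
    rw [sub_zero] at e1 e2
    have e3 : m / 2 = m' / 2 := hmm
    omega
  · apply (Set.finite_Iic ⌊X + X ^ η⌋₊).subset
    intro a ha
    obtain ⟨_, h2, _⟩ := ha
    rw [Set.mem_Iic]
    exact Nat.le_floor h2

end Pool.Agent.Results.MP_3aaefc_nt.LateIndices
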