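import Mathlib
import Pool.Agent.N740.HK.PolyT
import Pool.Agent.N740.HK.Sch

/-!
# The numbers `p_n + 2 P(n)` in all sequential random models of the primes

The integers are decided one after the other and the conditional probability of choosing `n + 1`,
given the decisions up to `n`, is asymptotic to `1 / log n`, almost surely.  Nothing else is assumed:
no independence and no rate of convergence.  The independent model of Cramér and the random sieve of
Hawkins are examples.
-/

set_option autoImplicit false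

open MeasureTheory Filter Set ProbabilityTheory Polynomial
open scoped Topology

namespace Pool.Agent.Results.MP_3aaefc_nt.SequentialModels

variable {Ω : Type}

/-- `A n` is the event that `n` is chosen.  The events are adapted to the filtration `ℱ` and the
conditional probability of `A (n + 1)` given `ℱ n`, times `log n`, tends to `1` almost surely. -/
def SequentialModel [m : MeasurableSpace Ω] (μ : Measure Ω) (ℱ : Filtration ℕ m) (A : ℕ → Set Ω) : Prop :=
  (∀ n, MeasurableSet[ℱ n] (A n)) ∧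
  ∀ᵐ ω ∂μ, Tendsto (fun n : ℕ => (μ[(A (n + 1)).indicator (fun _ => (1 : ℝ)) | ℱ n]) ω * Real.log n) atTop (𝓝 1)

/-- The model of Cramér: independent events, `n` is chosen with probability `1 / log n` for `n ≥ 3`. -/
def CramerModel [MeasurableSpace Ω] (μ : Measure Ω) (A : ℕ → Set Ω) : Prop :=
  (∀ n, MeasurableSet (A n)) ∧ iIndepSet A μ ∧ ∀ n : ℕ, 3 ≤ n → μ (A n) = ENNReal.ofReal (1 / Real.log n)

open Classical in
/-- The random sieve of Hawkins: `2` is chosen, and given the decisions up to `n ≥ 2` the number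
`n + 1` is chosen with probability `∏ (1 - 1 / h)`, the product over the chosen `2 ≤ h ≤ n`. -/
def HawkinsSieve [m : MeasurableSpace Ω] (μ : Measure Ω) (ℱ : Filtration ℕ m) (A : ℕ → Set Ω) : Prop :=
  (∀ n, MeasurableSet[ℱ n] (A n)) ∧ A 2 = univ ∧
  ∀ n, 2 ≤ n → μ[(A (n + 1)).indicator (fun _ => (1 : ℝ)) | ℱ n] =ᵐ[μ]
    fun ω => ∏ h ∈ Finset.Icc 2 n, if ω ∈ A h then 1 - 1 / (h : ℝ) else 1

/-- The member number `n` of the set `S`, `n ≥ 1`. -/
noncomputable def member (S : Set ℕ) (n : ℕ) : ℕ := Nat.nth (· ∈ S) (n - 1)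

/-- `p_n + 2 P(n)` is a member of `S`, where `p_n` is the member number `n` of `S`. -/
def Hit (S : Set ℕ) (P : ℚ[X]) (n : ℕ) : Prop := ∃ q ∈ S, (q : ℚ) = member S n + 2 * P.eval (n : ℚ)

open Pool.Agent.N740.HK Pool.Agent.R528.RM

lemma prod_inv (A : ℕ → Set Ω) (n : ℕ) (ω : Ω) [DecidablePred fun h => ω ∈ A h] :
    (∏ h ∈ Finset.Icc 2 n, if ω ∈ A h then 1 - 1 / (h : ℝ) else 1) = (Y A n ω)⁻¹ := by
  unfold Y
  rw [← Finset.prod_inv_distrib]
  refine Finset.prod_congr rfl fun h hh => ?_
  have h2 : (2 : ℝ) ≤ h := by exact_mod_cast (Finset.mem_Icc.1 hh).1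
  by_cases hA : ω ∈ A h
  · rw [if_pos hA, if_pos hA, inv_div]
    field_simp
  · rw [if_neg hA, if_neg hA, inv_one]

lemma log_ratio : Tendsto (fun n : ℕ => (Real.log ((n + 1 : ℕ) : ℝ))⁻¹ * Real.log n) atTop (𝓝 1) := by
  have h1 : Tendsto (fun n : ℕ => Real.log ((n : ℝ) + 1) - Real.log n) atTop (𝓝 0) := by
    have h1 : Tendsto (fun n : ℕ => 1 + (1 : ℝ) / n) atTop (𝓝 (1 + 0)) :=
      tendsto_const_nhds.add tendsto_one_div_atTop_nhds_zero_nat
    rw [add_zero] at h1
    have h2 := (Real.continuousAt_log (one_ne_zero)).tendsto.comp h1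
    rw [Real.log_one] at h2
    refine h2.congr' ?_
    filter_upwards [eventually_gt_atTop 0] with n hn
    have hn' : (0 : ℝ) < n := by exact_mod_cast hn
    show Real.log (1 + 1 / (n : ℝ)) = _
    rw [← Real.log_div (by positivity) hn'.ne']
    congr 1
    field_simp
  have h2 : Tendsto (fun n : ℕ => Real.log ((n : ℝ) + 1)) atTop atTop :=
    Real.tendsto_log_atTop.comp (tendsto_atTop_add_const_right _ _ tendsto_natCast_atTop_atTop)
  have h3 := h1.div_atTop h2
  have h4 : Tendsto (fun n : ℕ => 1 - (Real.log ((n : ℝ) + 1) - Real.log n) / Real.log ((n : ℝ) + 1)) atTop (𝓝 (1 - 0)) :=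
    tendsto_const_nhds.sub h3
  rw [sub_zero] at h4
  refine h4.congr' ?_
  filter_upwards [h2.eventually_gt_atTop 0] with n hn
  push_cast
  field_simp
  ring

end Pool.Agent.Results.MP_3aaefc_nt.SequentialModels

open Pool.Agent.Results.MP_3aaefc_nt.SequentialModels Pool.Agent.N740.HK Pool.Agent.R528.RM

open Classical in
/-- The random sieve of Hawkins is a sequential model, the model of Cramér is one for some filtration.
In every sequential model, almost surely, for all integer valued polynomials `P` with positive leading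
coefficient at the same time, the number of `n ≤ N` such that `p_n + 2 P(n)` is chosen is asymptotic to
`N / (max(1, deg P) log N)`, where `p_n` is the `n`-th chosen integer; in particular there are infinitely
many such `n`. -/
theorem Pool.Agent.Results.MP_3aaefc_nt.SequentialModels.result
    {Ω : Type} [m : MeasurableSpace Ω] (μ : Measure Ω) [IsProbabilityMeasure μ] (A : ℕ → Set Ω) :
    (CramerModel μ A → ∃ ℱ : Filtration ℕ m, SequentialModel μ ℱ A) ∧
    ∀ ℱ : Filtration ℕ m,
    (HawkinsSieve μ ℱ A → SequentialModel μ ℱ A) ∧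
    (SequentialModel μ ℱ A →
      ∀ᵐ ω ∂μ, ∀ P : ℚ[X], (∀ k : ℤ, ∃ l : ℤ, P.eval (k : ℚ) = l) → 0 < P.leadingCoeff →
        {n : ℕ | 1 ≤ n ∧ Hit {k | ω ∈ A k} P n}.Infinite ∧
        Tendsto (fun N : ℕ => (((Finset.Icc 1 N).filter (fun n => Hit {k | ω ∈ A k} P n)).card : ℝ) *
          (max 1 (P.natDegree : ℝ) * Real.log N) / N) atTop (𝓝 1)) := by
  refine ⟨?_, fun ℱ => ⟨?_, ?_⟩⟩
  · rintro ⟨hA, hi, hp⟩
    refine ⟨gen hA, gen_meas hA, ?_⟩
    have h1 : ∀ᵐ ω ∂μ, ∀ n, (μ[(A (n + 1)).indicator (fun _ => (1 : ℝ)) | gen hA n]) ω =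
        (μ (A (n + 1))).toReal := ae_all_iff.2 fun n => dens_gen hA hi n
    filter_upwards [h1] with ω hω
    refine log_ratio.congr' ?_
    filter_upwards [eventually_ge_atTop 2] with n hn
    rw [hω, hp (n + 1) (by omega), ENNReal.toReal_ofReal, one_div]
    have : 0 ≤ Real.log ((n + 1 : ℕ) : ℝ) := Real.log_natCast_nonneg _
    positivity
  · rintro ⟨h1, h2, h3⟩
    have hs : Pool.Agent.N740.HK.HS μ ℱ A := ⟨h1, h2, fun n hn => by
      filter_upwards [h3 n hn] with ω hω
      rw [← prod_inv]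
      exact hω⟩
    exact ⟨h1, Pool.Agent.N740.HK.hawk_dens hs⟩
  · rintro ⟨hA, hd⟩
    have := count_poly
    rw [ae_all_iff]
    intro P
    by_cases hP : ∀ k : ℤ, ∃ l : ℤ, P.eval (k : ℚ) = l
    swap
    · exact Eventually.of_forall fun ω h => absurd h hP
    by_cases hlc : 0 < P.leadingCoeff
    swap
    · exact Eventually.of_forall fun ω _ h => absurd h hlc
    obtain ⟨v, hv, ⟨n₀, hn₀⟩, hD⟩ := poly_fn P hP hlc
    filter_upwards [shift_law (μ := μ) hA hd v n₀ hn₀ hD] with ω hω _ _
    have e0 : ∀ n : ℕ, Hit {k | ω ∈ A k} P (n + 1) ↔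
        ∃ q : ℕ, ω ∈ A q ∧ (q : ℤ) = pn (rset A ω) n + 2 * v (n + 1) := by
      intro n
      unfold Hit member
      rw [Nat.add_sub_cancel, hv (n + 1)]
      constructor
      · rintro ⟨q, hq, hq'⟩
        exact ⟨q, hq, by exact_mod_cast hq'⟩
      · rintro ⟨q, hq, hq'⟩
        exact ⟨q, hq, by exact_mod_cast hq'⟩
    have e1 : ∀ N : ℕ, (((Finset.Icc 1 N).filter (fun n => Hit {k | ω ∈ A k} P n)).card : ℝ) =
        ∑ n ∈ Finset.range N, (if ∃ q : ℕ, ω ∈ A q ∧ (q : ℤ) = pn (rset A ω) n + 2 * v (n + 1) then (1 : ℝ) else 0) := by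
      intro N
      rw [Finset.card_filter]
      push_cast
      induction N with
      | zero => simp
      | succ N ih =>
        have hI : Finset.Icc 1 (N + 1) = insert (N + 1) (Finset.Icc 1 N) := by
          ext x
          simp only [Finset.mem_Icc, Finset.mem_insert]
          omega
        rw [hI, Finset.sum_insert (by simp), ih, Finset.sum_range_succ, add_comm]
        congr 1
        simp only [e0 N]
    have h2 : Tendsto (fun N : ℕ => (((Finset.Icc 1 N).filter (fun n => Hit {k | ω ∈ A k} P n)).card : ℝ) *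
          (max 1 (P.natDegree : ℝ) * Real.log N) / N) atTop (𝓝 1) := by
      refine hω.2.congr fun N => ?_
      rw [e1]
    refine ⟨?_, h2⟩
    intro hfin
    have h3 : Tendsto (fun N : ℕ => (((Finset.Icc 1 N).filter (fun n => Hit {k | ω ∈ A k} P n)).card : ℝ)) atTop atTop := by
      apply sum_top (β := (max 1 (P.natDegree : ℝ))⁻¹) (by positivity)
      have h4 := h2.mul_const (max 1 (P.natDegree : ℝ))⁻¹
      rw [one_mul] at h4
      refine h4.congr fun N => ?_
      have : max 1 (P.natDegree : ℝ) ≠ 0 := by positivity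
      field_simp
    obtain ⟨N, hN⟩ := (h3.eventually_gt_atTop (hfin.toFinset.card : ℝ)).exists
    have h5 : ((Finset.Icc 1 N).filter (fun n => Hit {k | ω ∈ A k} P n)).card ≤ hfin.toFinset.card := by
      apply Finset.card_le_card
      intro n hn
      rw [Finset.mem_filter, Finset.mem_Icc] at hn
      rw [Set.Finite.mem_toFinset]
      exact ⟨hn.1.1, hn.2⟩
    have h6 : (((Finset.Icc 1 N).filter (fun n => Hit {k | ω ∈ A k} P n)).card : ℝ) ≤ hfin.toFinset.card := by
      exact_mod_cast h5
    linarith
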